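import Pool.Agent.helper41.CL.SpecB

/-! # A star with three edges and an isolated vertex -/

set_option autoImplicit false

namespace Pool.Agent.helper41.CL

open Finset

theorem XR : XR_stmt := by
  refine ⟨?_, by decide, by decide, by decide⟩
  unfold Gr
  decide

end Pool.Agent.helper41.CL
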